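import Pool.Agent.Lib.MP_b5021c_nt.IfaceOC
import Pool.Agent.Lib.MP_b5021c_nt.KO.H40.G4
import Pool.Agent.Lib.MP_b5021c_nt.KV.H67.Ez

/-!
# Board b5, ALL `θ`, K ODD, (O4): row OC_PRE (helper35)
-/

set_option linter.unusedSectionVars false

namespace Pool.Agent.B5.OC

open scoped LaurentPolynomial
open Polynomial
open Pool.Agent.B5
open Pool.Agent.B5.KE
open Pool.Agent.B5.Nr.Sch
open Pool.Agent.B5.Nr (TrezS)
open Pool.Agent.B5.H61 (CuspS)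
open Pool.Agent.B5.KO67 (upper)
open Pool.Agent.B5.KV67 (Ez_of)

/-- Row OC_PRE. -/
theorem pre (hMV : MVS) (hMm : MmulS) (hE1 : E1S) (hPc : PCZS) (hClp : ClpS) (hFD : FDS)
    (hSf : SfzS) (hI3 : Io3S) (hMfc : MfcS) (hCa : Ca5S) (hGlc : GlcS) (hFou : FouS)
    (hDti : DtiS) (hCu : CuspS) : PreS := by
  intro P L _ _ _ _ _ phi D q f a j eta C k Z mu W hu hn h hZ hk
  have fp := W.ko.min.fp
  have hD := fp.dd
  have h2 : 2 ≤ Module.finrank ℤ L := by have := W.ko.rk; have := W.ko.j2; omega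
  obtain ⟨e, he, hRN⟩ := W.rn (Z 0) (hZ 0)
  have hM' : Mut D (Z 0) (Z (0 + 1)) (ld e 1) (eta (Z (0 + 1))) := by
    rw [← he]
    exact h.mtl 0
  obtain ⟨-, hzero, -⟩ := upper hMV hMm hE1 hPc hClp hFD hSf hI3 hMfc hCa hGlc hFou hDti W hu
    (hZ 0) he hRN
  have hcusp : ∀ z : ℂ, ‖z‖ = 1 → (aeval z (q + X * f) : ℂ) ≠ 0 := fun z hz =>
    cusp_m1 hCu hD h2 hRN hM' hzero hz
  obtain ⟨E, hE, hE0, -, hEz⟩ := typa hRN.loc hu hRN.ne
  rw [hn] at hE0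
  have hEz' := Ez_of hMfc hD h2 hRN hM' hE hEz hcusp
  have htp := KO.H40.tp_of hMV hMm hE1 hPc hClp hFD hSf hGlc hFou hDti W hu
  rw [one_div, one_div] at htp
  refine ⟨E, ⟨hk, W, hu, hn, hE, hE0, hEz', hcusp, htp, h, hZ, fun i => ?_⟩⟩
  obtain ⟨e', he', hRN'⟩ := W.rn (Z i) (hZ i)
  have h5 := ld_S hRN' 1
  rw [pow_one] at h5
  rw [he']
  exact h5

end Pool.Agent.B5.OC
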